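import Pool.Agent.Y817.BC.Stm

set_option autoImplicit false

/-!
# BC-CLOSE: the derived configuration is valid
-/

namespace Pool.Agent.Y801.BC.Close

open Pool.Agent.Y817.BC

/-- transposed types -/
def trTy : Ty → Ty
  | .C => .C
  | .V1 => .H1
  | .V2 => .H2
  | .H1 => .V1
  | .H2 => .V2

theorem trTy_isV (t : Ty) : (trTy t).isV = t.isH := by cases t <;> rfl
theorem trTy_isH (t : Ty) : (trTy t).isH = t.isV := by cases t <;> rfl

/-- transposed labels -/
def tr (A : HL) : HL := ⟨trTy A.ty, A.q, A.u, A.p, A.o, A.s', A.s, A.r', A.r⟩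

theorem trCell {A : HL} (h : A.Cell) : (tr A).Cell where
  pq h1 h2 := by
    have := h.pq h2 h1
    show trTy A.ty = _
    rw [this]; rfl
  pnq h1 h2 := by
    have := h.npq h2 h1
    show (trTy A.ty).isH = _
    rw [trTy_isH]; exact this
  npq h1 h2 := by
    have := h.pnq h2 h1
    show (trTy A.ty).isV = _
    rw [trTy_isV]; exact this
  s_C h1 := h.s'_C (by have : trTy A.ty = .C := h1; revert this; cases A.ty <;> simp [trTy])
  s_V1 h1 := h.s'_H1 (by have : trTy A.ty = .V1 := h1; revert this; cases A.ty <;> simp [trTy])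
  s_V2 h1 := h.s'_H2 (by have : trTy A.ty = .V2 := h1; revert this; cases A.ty <;> simp [trTy])
  s'_C h1 := h.s_C (by have : trTy A.ty = .C := h1; revert this; cases A.ty <;> simp [trTy])
  s'_H1 h1 := h.s_V1 (by have : trTy A.ty = .H1 := h1; revert this; cases A.ty <;> simp [trTy])
  s'_H2 h1 := h.s_V2 (by have : trTy A.ty = .H2 := h1; revert this; cases A.ty <;> simp [trTy])
  r_V1 h0 h1 := h.r'_H1 h0
    (by have : trTy A.ty = .V1 := h1; revert this; cases A.ty <;> simp [trTy])
  r_C h0 h1 := h.r'_C h0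
    (by have : trTy A.ty = .C := h1; revert this; cases A.ty <;> simp [trTy])
  r_H h0 h1 := h.r'_V h0 (by rw [← trTy_isH]; exact h1)
  r'_H1 h0 h1 := h.r_V1 h0
    (by have : trTy A.ty = .H1 := h1; revert this; cases A.ty <;> simp [trTy])
  r'_C h0 h1 := h.r_C h0
    (by have : trTy A.ty = .C := h1; revert this; cases A.ty <;> simp [trTy])
  r'_V h0 h1 := h.r_H h0 (by rw [← trTy_isV]; exact h1)

theorem trHor {A B : HL} (h : HL.Ver A B) : HL.Hor (tr A) (tr B) where
  p := h.q
  q := h.p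
  u := h.o
  s := by
    have := h.s'
    show B.s' = if (trTy A.ty).isH then A.s' else A.s' + 1
    rw [trTy_isH]; exact this
  r' h0 := by
    have := h.r h0
    show B.r = if trTy A.ty = .H2 then A.r else A.r + 1
    rw [this]
    cases A.ty <;> simp [trTy]

theorem trVer {A B : HL} (h : HL.Hor A B) : HL.Ver (tr A) (tr B) where
  q := h.p
  p := h.q
  o := h.u
  s' := by
    have := h.s
    show B.s = if (trTy A.ty).isV then A.s else A.s + 1
    rw [trTy_isV]; exact this
  r h0 := by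
    have := h.r' h0
    show B.r' = if trTy A.ty = .V2 then A.r' else A.r' + 1
    rw [this]
    cases A.ty <;> simp [trTy]

/-- a valid configuration with its column and row functions -/
structure Pack (c : ℕ → ℕ → HL) (p o q u : ℕ → Bool) : Prop where
  v : V2 c
  hp : ∀ x z, (c x z).p = p x
  ho : ∀ x z, (c x z).o = o x
  hq : ∀ x z, (c x z).q = q z
  hu : ∀ x z, (c x z).u = u z

theorem Pack.of {c : ℕ → ℕ → HL} (h : V2 c) :
    Pack c (fun x => (c x 0).p) (fun x => (c x 0).o) (fun z => (c 0 z).q) (fun z => (c 0 z).u) where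
  v := h
  hp x z := by
    induction z with
    | zero => rfl
    | succ z ih => rw [(h x z).2.2.p, ih]
  ho x z := by
    induction z with
    | zero => rfl
    | succ z ih => rw [(h x z).2.2.o, ih]
  hq x z := by
    induction x with
    | zero => rfl
    | succ x ih => rw [(h x z).2.1.q, ih]
  hu x z := by
    induction x with
    | zero => rfl
    | succ x ih => rw [(h x z).2.1.u, ih]

variable {c : ℕ → ℕ → HL} {p o q u : ℕ → Bool}

theorem Pack.tr (h : Pack c p o q u) : Pack (fun x z => tr (c z x)) q u p o where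
  v x z := ⟨trCell (h.v z x).1, trHor (h.v z x).2.2, trVer (h.v z x).2.1⟩
  hp x z := h.hq z x
  ho x z := h.hu z x
  hq x z := h.hp z x
  hu x z := h.ho z x

theorem Pack.p_succ (h : Pack c p o q u) (x : ℕ) : p (x + 1) = !p x := by
  rw [← h.hp (x + 1) 0, ← h.hp x 0]; exact (h.v x 0).2.1.p

theorem Pack.q_succ (h : Pack c p o q u) (z : ℕ) : q (z + 1) = !q z := by
  rw [← h.hq 0 (z + 1), ← h.hq 0 z]; exact (h.v 0 z).2.2.q

theorem Pack.p_even (h : Pack c p o q u) (x m : ℕ) : p (2 * m + x) = p x := by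
  induction m with
  | zero => rw [Nat.mul_zero, Nat.zero_add]
  | succ m ih =>
    rw [show 2 * (m + 1) + x = (2 * m + x + 1) + 1 by ring, h.p_succ, h.p_succ, ih, Bool.not_not]

theorem isV_cases {t : Ty} (h : t.isV = true) : t = .V1 ∨ t = .V2 := by
  revert h; cases t <;> simp [Ty.isV]

theorem isV_not_isH {t : Ty} (h : t.isV = true) : t.isH = false := by
  revert h; cases t <;> simp [Ty.isV, Ty.isH]

theorem not_both {t : Ty} (h1 : t.isV = false) (h2 : t.isH = false) : t = .C := by
  revert h1 h2; cases t <;> simp [Ty.isV, Ty.isH]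

theorem Pack.cc (h : Pack c p o q u) {x z : ℕ} (hp : p x = true) (hq : q z = true) :
    (c x z).ty = .C :=
  (h.v x z).1.pq (by rw [h.hp]; exact hp) (by rw [h.hq]; exact hq)

theorem Pack.vv (h : Pack c p o q u) {x z : ℕ} (hp : p x = false) (hq : q z = true) :
    (c x z).ty.isV = true :=
  (h.v x z).1.npq (by rw [h.hp]; exact hp) (by rw [h.hq]; exact hq)

theorem Pack.hh (h : Pack c p o q u) {x z : ℕ} (hp : p x = true) (hq : q z = false) :
    (c x z).ty.isH = true :=
  (h.v x z).1.pnq (by rw [h.hp]; exact hp) (by rw [h.hq]; exact hq)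

theorem Pack.ty1 (h : Pack c p o q u) {x z : ℕ} (hp : p x = false) (hq : q z = true) :
    (c x z).ty = if o (x + 1) then .V2 else .V1 := by
  have hV := h.vv hp hq
  have hC : (c (x + 1) z).ty = .C := h.cc (by rw [h.p_succ, hp]; rfl) hq
  have hs := (h.v (x + 1) z).1.s_C hC
  rw [h.ho] at hs
  have hs2 := (h.v x z).2.1.s
  rw [isV_not_isH hV] at hs2
  simp only [Bool.false_eq_true, if_false] at hs2
  rcases isV_cases hV with h1 | h1
  · have h2 := (h.v x z).1.s_V1 h1
    rw [h2] at hs2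
    rw [hs2] at hs
    rw [h1]
    cases ho : o (x + 1)
    · rfl
    · rw [ho] at hs
      exact absurd hs (by decide)
  · have h2 := (h.v x z).1.s_V2 h1
    rw [h2] at hs2
    rw [hs2] at hs
    rw [h1]
    cases ho : o (x + 1)
    · rw [ho] at hs
      exact absurd hs (by decide)
    · rfl

theorem Pack.exq (h : Pack c p o q u) : ∃ z, q z = true := by
  cases h0 : q 0
  · exact ⟨1, by rw [h.q_succ, h0]; rfl⟩
  · exact ⟨0, h0⟩

theorem Pack.alt (h : Pack c p o q u) {x : ℕ} (hp : p x = false) : o (x + 3) = !o (x + 1) := by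
  obtain ⟨z, hz⟩ := h.exq
  have hp1 : p (x + 1) = true := by rw [h.p_succ, hp]; rfl
  have hp2 : p (x + 2) = false := by rw [h.p_succ, hp1]; rfl
  have hp3 : p (x + 3) = true := by rw [h.p_succ, hp2]; rfl
  have t1 := h.cc hp1 hz
  have t3 := h.cc hp3 hz
  have t2 := h.vv hp2 hz
  have s1 := (h.v (x + 1) z).1.s_C t1
  have s3 := (h.v (x + 3) z).1.s_C t3
  have s12 := (h.v (x + 1) z).2.1.s
  have s23 := (h.v (x + 2) z).2.1.s
  rw [t1] at s12
  rw [isV_not_isH t2] at s23
  simp only [Ty.isH, Bool.false_eq_true, if_false] at s12 s23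
  rw [h.ho] at s1 s3
  have e : (c (x + 3) z).s = (c (x + 1) z).s + 1 + 1 := by
    rw [← s12]; exact s23
  rw [s1, s3] at e
  revert e
  cases o (x + 1) <;> cases o (x + 3) <;> decide

theorem fin4a : ∀ r : Fin 4, (r = 0 ∨ r = 2) → ¬ (r + 1 = 0 ∨ r + 1 = 2) := by decide

theorem Pack.notV (h : Pack c p o q u) {x z : ℕ} (hp : p x = false) (hq : q z = true)
    (ho : o (x + 1) = false) : (c x (z + 1)).ty.isV = false := by
  have hq2 : q (z + 2) = true := by
    rw [h.q_succ, h.q_succ, hq]; rfl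
  have t0 : (c x z).ty = .V1 := by rw [h.ty1 hp hq, ho]; rfl
  have t2 : (c x (z + 2)).ty = .V1 := by rw [h.ty1 hp hq2, ho]; rfl
  have r0 := (h.v x z).1.r_V1 (by rw [h.hp]; exact hp) t0
  have r2 := (h.v x (z + 2)).1.r_V1 (by rw [h.hp]; exact hp) t2
  have r01 := (h.v x z).2.2.r (by rw [h.hp]; exact hp)
  have r12 := (h.v x (z + 1)).2.2.r (by rw [h.hp]; exact hp)
  rw [t0] at r01
  simp only [reduceCtorEq, if_false] at r01
  by_contra hcon
  have hcon' : (c x (z + 1)).ty.isV = true := by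
    cases hh : (c x (z + 1)).ty.isV
    · exact absurd hh hcon
    · rfl
  rcases isV_cases hcon' with h1 | h1
  · have r1 := (h.v x (z + 1)).1.r_V1 (by rw [h.hp]; exact hp) h1
    rw [r01] at r1
    exact fin4a _ r0 r1
  · rw [h1] at r12
    simp only [if_true] at r12
    have e : (c x (z + 2)).r = (c x z).r + 1 := by rw [← r01]; exact r12
    rw [e] at r2
    exact fin4a _ r0 r2

theorem Pack.notH (h : Pack c p o q u) {x z : ℕ} (hp : p x = true) (hq : q z = false)
    (hu : u (z + 1) = false) : (c (x + 1) z).ty.isH = false := by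
  have := h.tr.notV (x := z) (z := x) hq hp hu
  rw [← trTy_isV]
  exact this

theorem Pack.dC (h : Pack c p o q u) {x z : ℕ} (hp : p x = true) (hq : q z = true)
    (ho : o (x + 2) = false) (hu : u (z + 2) = false) : (c (x + 1) (z + 1)).ty = .C :=
  not_both (h.notV (by rw [h.p_succ, hp]; rfl) hq ho) (h.notH hp (by rw [h.q_succ, hq]; rfl) hu)

theorem Pack.dH (h : Pack c p o q u) {x z : ℕ} (hp : p x = true) (hq : q z = true)
    (ho : o (x + 2) = false) (hu : u (z + 2) = true) : (c (x + 1) (z + 1)).ty.isH = true := by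
  have hp1 : p (x + 1) = false := by rw [h.p_succ, hp]; rfl
  have hq1 : q (z + 1) = false := by rw [h.q_succ, hq]; rfl
  have hq2 : q (z + 2) = true := by rw [h.q_succ, hq1]; rfl
  have hu4 : u (z + 4) = false := by
    have := h.tr.alt (x := z + 1) hq1
    rw [this, hu]; rfl
  have nV := h.notV hp1 hq ho
  by_contra hcon
  have hcon' : (c (x + 1) (z + 1)).ty.isH = false := by
    cases hh : (c (x + 1) (z + 1)).ty.isH
    · rfl
    · exact absurd hh hcon
  have t1 := not_both nV hcon'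
  have t3 : (c (x + 1) (z + 3)).ty = .C := h.dC (z := z + 2) hp hq2 ho hu4
  have t2 : (c (x + 1) (z + 2)).ty = .V1 := by rw [h.ty1 hp1 hq2, ho]; rfl
  have hpp : ∀ z, (c (x + 1) z).p = false := fun z => by rw [h.hp]; exact hp1
  have r1 := (h.v (x + 1) (z + 1)).1.r_C (hpp _) t1
  have r3 := (h.v (x + 1) (z + 3)).1.r_C (hpp _) t3
  have r12 := (h.v (x + 1) (z + 1)).2.2.r (hpp _)
  have r23 := (h.v (x + 1) (z + 2)).2.2.r (hpp _)
  rw [t1] at r12
  rw [t2] at r23
  simp only [reduceCtorEq, if_false] at r12 r23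
  have e : (c (x + 1) (z + 3)).r = (c (x + 1) (z + 1)).r + 1 + 1 := by rw [← r12]; exact r23
  rw [r1, r3] at e
  exact absurd e (by decide)

theorem Pack.dV (h : Pack c p o q u) {x z : ℕ} (hp : p x = true) (hq : q z = true)
    (ho : o (x + 2) = true) (hu : u (z + 2) = false) : (c (x + 1) (z + 1)).ty.isV = true := by
  have := h.tr.dH (x := z) (z := x) hq hp hu ho
  rw [← trTy_isH]
  exact this

/-- the rules for two horizontal neighbours of the derived configuration -/
theorem Pack.hor (h : Pack c p o q u) {x z : ℕ} (hp : p x = true) (hq : q z = true) :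
    (c (x + 3) (z + 1)).s = (if (c (x + 1) (z + 1)).ty.isH then (c (x + 1) (z + 1)).s
      else (c (x + 1) (z + 1)).s + 1) ∧
    (u (z + 2) = true → (c (x + 3) (z + 1)).r' = if (c (x + 1) (z + 1)).ty = .H2 then
      (c (x + 1) (z + 1)).r' else (c (x + 1) (z + 1)).r' + 1) := by
  have hp1 : p (x + 1) = false := by rw [h.p_succ, hp]; rfl
  have hp2 : p (x + 2) = true := by rw [h.p_succ, hp1]; rfl
  have hq1 : q (z + 1) = false := by rw [h.q_succ, hq]; rfl
  constructor
  · have s12 := (h.v (x + 1) (z + 1)).2.1.s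
    have s23 := (h.v (x + 2) (z + 1)).2.1.s
    rw [h.hh hp2 hq1] at s23
    simp only [if_true] at s23
    rw [← s12]
    exact s23
  · intro hu
    have t2 : (c (x + 2) (z + 1)).ty = .H2 := by
      have h1 := h.tr.ty1 (x := z + 1) (z := x + 2) hq1 hp2
      rw [hu] at h1
      simp only [if_true] at h1
      have h2 : trTy (c (x + 2) (z + 1)).ty = .V2 := h1
      revert h2
      cases (c (x + 2) (z + 1)).ty <;> simp [trTy]
    have r12 := (h.v (x + 1) (z + 1)).2.1.r' (by rw [h.hq]; exact hq1)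
    have r23 := (h.v (x + 2) (z + 1)).2.1.r' (by rw [h.hq]; exact hq1)
    rw [t2] at r23
    simp only [if_true] at r23
    rw [← r12]
    exact r23

theorem not_eq_true_iff {b : Bool} : (!b) = true ↔ b = false := by cases b <;> simp
theorem not_eq_false_iff {b : Bool} : (!b) = false ↔ b = true := by cases b <;> simp

theorem Pack.close (h : Pack c p o q u) {a b : ℕ} (ha : a = 1 ∨ a = 2) (hb : b = 1 ∨ b = 2)
    (hpa : p a = false) (hqb : q b = false) :
    Pack (der a b c) (fun X => !o (2 * X + a + 1)) (fun X => o (2 * X + a))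
      (fun Z => !u (2 * Z + b + 1)) (fun Z => u (2 * Z + b)) := by
  obtain ⟨a', rfl⟩ : ∃ a', a = a' + 1 := ⟨a - 1, by omega⟩
  obtain ⟨b', rfl⟩ : ∃ b', b = b' + 1 := ⟨b - 1, by omega⟩
  have hp : ∀ X, p (2 * X + a') = true := by
    intro X
    have h1 := h.p_even (a' + 1) X
    have h2 := h.p_succ (2 * X + a')
    rw [show 2 * X + a' + 1 = 2 * X + (a' + 1) by ring, h1, hpa] at h2
    exact (not_eq_false_iff.1 h2.symm)
  have hq : ∀ Z, q (2 * Z + b') = true := by
    intro Z
    have h1 := h.tr.p_even (b' + 1) Z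
    have h2 := h.q_succ (2 * Z + b')
    rw [show 2 * Z + b' + 1 = 2 * Z + (b' + 1) by ring, h1, hqb] at h2
    exact (not_eq_false_iff.1 h2.symm)
  have dp : ∀ X Z, (der (a' + 1) (b' + 1) c X Z).p = !o (2 * X + a' + 2) := fun X Z => by
    show (!(c (2 * X + (a' + 1) + 1) (2 * Z + (b' + 1))).o) = _
    rw [h.ho]; rfl
  have dq : ∀ X Z, (der (a' + 1) (b' + 1) c X Z).q = !u (2 * Z + b' + 2) := fun X Z => by
    show (!(c (2 * X + (a' + 1)) (2 * Z + (b' + 1) + 1)).u) = _
    rw [h.hu]; rfl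
  refine ⟨fun X Z => ⟨?_, ?_, ?_⟩, ?_, ?_, ?_, ?_⟩
  · -- one label
    have hcell := (h.v (2 * X + a' + 1) (2 * Z + b' + 1)).1
    have hcp : (c (2 * X + a' + 1) (2 * Z + b' + 1)).p = false := by
      rw [h.hp, h.p_succ, hp]; rfl
    have hcq : (c (2 * X + a' + 1) (2 * Z + b' + 1)).q = false := by
      rw [h.hq, h.q_succ, hq]; rfl
    refine ⟨fun h1 h2 => ?_, fun h1 h2 => ?_, fun h1 h2 => ?_, hcell.s_C, hcell.s_V1, hcell.s_V2,
      hcell.s'_C, hcell.s'_H1, hcell.s'_H2, fun _ => hcell.r_V1 hcp, fun _ => hcell.r_C hcp,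
      fun _ => hcell.r_H hcp, fun _ => hcell.r'_H1 hcq, fun _ => hcell.r'_C hcq,
      fun _ => hcell.r'_V hcq⟩
    · rw [dp, not_eq_true_iff] at h1
      rw [dq, not_eq_true_iff] at h2
      exact h.dC (hp X) (hq Z) h1 h2
    · rw [dp, not_eq_true_iff] at h1
      rw [dq, not_eq_false_iff] at h2
      exact h.dH (hp X) (hq Z) h1 h2
    · rw [dp, not_eq_false_iff] at h1
      rw [dq, not_eq_true_iff] at h2
      exact h.dV (hp X) (hq Z) h1 h2
  · -- horizontal neighbours
    have hh := h.hor (hp X) (hq Z)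
    refine ⟨?_, ?_, ?_, ?_, ?_⟩
    · rw [dp, dp]
      have := h.alt (x := 2 * X + a' + 1) (by rw [h.p_succ, hp]; rfl)
      rw [show 2 * (X + 1) + a' + 2 = 2 * X + a' + 1 + 3 by ring, this]
    · rw [dq, dq]
    · show (c (2 * (X + 1) + (a' + 1)) (2 * Z + (b' + 1))).u =
        (c (2 * X + (a' + 1)) (2 * Z + (b' + 1))).u
      rw [h.hu, h.hu]
    · have := hh.1
      show (c (2 * (X + 1) + (a' + 1)) (2 * Z + (b' + 1))).s = _
      rw [show 2 * (X + 1) + (a' + 1) = 2 * X + a' + 3 by ring]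
      exact this
    · intro h1
      rw [dq, not_eq_false_iff] at h1
      have := hh.2 h1
      show (c (2 * (X + 1) + (a' + 1)) (2 * Z + (b' + 1))).r' = _
      rw [show 2 * (X + 1) + (a' + 1) = 2 * X + a' + 3 by ring]
      exact this
  · -- vertical neighbours
    have hh := h.tr.hor (x := 2 * Z + b') (z := 2 * X + a') (hq Z) (hp X)
    refine ⟨?_, ?_, ?_, ?_, ?_⟩
    · rw [dq, dq]
      have := h.tr.alt (x := 2 * Z + b' + 1) (by rw [h.q_succ, hq]; rfl)
      rw [show 2 * (Z + 1) + b' + 2 = 2 * Z + b' + 1 + 3 by ring, this]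
    · rw [dp, dp]
    · show (c (2 * X + (a' + 1)) (2 * (Z + 1) + (b' + 1))).o =
        (c (2 * X + (a' + 1)) (2 * Z + (b' + 1))).o
      rw [h.ho, h.ho]
    · have h1 := hh.1
      have h2 : (c (2 * X + a' + 1) (2 * Z + b' + 3)).s' =
        if (trTy (c (2 * X + a' + 1) (2 * Z + b' + 1)).ty).isH then
          (c (2 * X + a' + 1) (2 * Z + b' + 1)).s'
        else (c (2 * X + a' + 1) (2 * Z + b' + 1)).s' + 1 := h1
      rw [trTy_isH] at h2
      show (c (2 * X + (a' + 1)) (2 * (Z + 1) + (b' + 1))).s' = _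
      rw [show 2 * (Z + 1) + (b' + 1) = 2 * Z + b' + 3 by ring]
      exact h2
    · intro h0
      rw [dp, not_eq_false_iff] at h0
      have h1 := hh.2 h0
      have h2 : (c (2 * X + a' + 1) (2 * Z + b' + 3)).r =
        if trTy (c (2 * X + a' + 1) (2 * Z + b' + 1)).ty = .H2 then
          (c (2 * X + a' + 1) (2 * Z + b' + 1)).r
        else (c (2 * X + a' + 1) (2 * Z + b' + 1)).r + 1 := h1
      have h3 : (trTy (c (2 * X + a' + 1) (2 * Z + b' + 1)).ty = .H2) ↔
          (c (2 * X + a' + 1) (2 * Z + b' + 1)).ty = .V2 := by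
        cases (c (2 * X + a' + 1) (2 * Z + b' + 1)).ty <;> simp [trTy]
      simp only [h3] at h2
      show (c (2 * X + (a' + 1)) (2 * (Z + 1) + (b' + 1))).r = _
      rw [show 2 * (Z + 1) + (b' + 1) = 2 * Z + b' + 3 by ring]
      exact h2
  · exact fun X Z => dp X Z
  · exact fun X Z => h.ho _ _
  · exact fun X Z => dq X Z
  · exact fun X Z => h.hu _ _

theorem t : StmClose := by
  intro c a b hc ha hb hpa hqb
  have h := Pack.of hc
  have h1 : (fun x => (c x 0).p) a = false := hpa 0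
  have h2 : (fun z => (c 0 z).q) b = false := hqb 0
  exact (h.close ha hb h1 h2).v

end Pool.Agent.Y801.BC.Close
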