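import Pool.Agent.Y801.BC.Close

set_option autoImplicit false

/-!
# BC-HIER: hierarchy of levels
-/

namespace Pool.Agent.Y801.BC.Hier

open Pool.Agent.Y817.BC Pool.Agent.Y801.BC.Close

/-- the first column of the next level -/
def aa (q u : ℕ → Bool) (k : ℕ) : ℕ := if qk q u (bb q u k) k 1 then 2 else 1

theorem aa_cases (q u : ℕ → Bool) (k : ℕ) : aa q u k = 1 ∨ aa q u k = 2 := by
  unfold aa; split_ifs
  · right; rfl
  · left; rfl

theorem bb_succ (q u : ℕ → Bool) (k : ℕ) : bb q u (k + 1) = bb q u k + 2 ^ k * aa q u k := rfl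

/-- the iterated derived configurations -/
def cf (p o q u : ℕ → Bool) (c : ℕ → ℕ → HL) : ℕ → ℕ → ℕ → HL
  | 0 => c
  | k + 1 => der (aa p o k) (aa q u k) (cf p o q u c k)

theorem aa_false {c : ℕ → ℕ → HL} {p o q u : ℕ → Bool} {k : ℕ} {p' o' : ℕ → Bool}
    (h : ∀ i, qk p' o' (bb p' o' k) k (i + 1) = !qk p' o' (bb p' o' k) k i) :
    qk p' o' (bb p' o' k) k (aa p' o' k) = false := by
  unfold aa
  cases h1 : qk p' o' (bb p' o' k) k 1
  · exact h1
  · simp only [if_true]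
    rw [h 1, h1]; rfl

theorem key {c : ℕ → ℕ → HL} {p o q u : ℕ → Bool} (h : Pack c p o q u) (k : ℕ) :
    Pack (cf p o q u c k) (fun X => qk p o (bb p o k) k X) (fun X => o (bb p o k + 2 ^ k * X))
      (fun Z => qk q u (bb q u k) k Z) (fun Z => u (bb q u k + 2 ^ k * Z)) ∧
    ∀ X Z, (cf p o q u c k X Z).ty = (c (bb p o k + 2 ^ k * X) (bb q u k + 2 ^ k * Z)).ty := by
  induction k with
  | zero =>
    have e1 : (fun X => qk p o (bb p o 0) 0 X) = p := rfl
    have e2 : (fun X => o (bb p o 0 + 2 ^ 0 * X)) = o := by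
      funext X; show o (0 + 1 * X) = _; rw [zero_add, one_mul]
    have e3 : (fun Z => qk q u (bb q u 0) 0 Z) = q := rfl
    have e4 : (fun Z => u (bb q u 0 + 2 ^ 0 * Z)) = u := by
      funext X; show u (0 + 1 * X) = _; rw [zero_add, one_mul]
    rw [e1, e2, e3, e4]
    refine ⟨h, fun X Z => ?_⟩
    show (c X Z).ty = (c (0 + 1 * X) (0 + 1 * Z)).ty
    rw [zero_add, one_mul, zero_add, one_mul]
  | succ k ih =>
    obtain ⟨hk, ht⟩ := ih
    have ha : qk p o (bb p o k) k (aa p o k) = false :=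
      aa_false (c := c) (p := p) (o := o) (q := q) (u := u) (fun i => hk.p_succ i)
    have hb : qk q u (bb q u k) k (aa q u k) = false :=
      aa_false (c := c) (p := p) (o := o) (q := q) (u := u) (fun i => hk.q_succ i)
    have hn := hk.close (aa_cases p o k) (aa_cases q u k) ha hb
    have pos : ∀ (q u : ℕ → Bool) (X : ℕ), bb q u k + 2 ^ k * (2 * X + aa q u k) =
        bb q u (k + 1) + 2 ^ (k + 1) * X := by
      intro q u X
      rw [bb_succ, pow_succ]; ring
    have e2 : ∀ (o p : ℕ → Bool), (fun X => o (bb p o k + 2 ^ k * (2 * X + aa p o k))) =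
        (fun X => o (bb p o (k + 1) + 2 ^ (k + 1) * X)) := by
      intro o p; funext X; rw [pos]
    have e1 : ∀ (o p : ℕ → Bool), (fun X => !o (bb p o k + 2 ^ k * (2 * X + aa p o k + 1))) =
        (fun X => qk p o (bb p o (k + 1)) (k + 1) X) := by
      intro o p; funext X
      unfold qk
      rw [if_neg (Nat.succ_ne_zero k), Nat.add_sub_cancel, mul_add, ← add_assoc, pos, mul_one]
    rw [e1 o p, e2 o p, e1 u q, e2 u q] at hn
    refine ⟨hn, fun X Z => ?_⟩
    show (cf p o q u c k (2 * X + aa p o k) (2 * Z + aa q u k)).ty = _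
    rw [ht, pos, pos]

/-- the offsets of two levels -/
theorem col (q u : ℕ → Bool) (l : ℕ) : ∀ n, ∃ m, bb q u (l + 1 + n) =
    bb q u l + 2 ^ l * (2 * m + aa q u l) := by
  intro n
  induction n with
  | zero => exact ⟨0, by rw [Nat.add_zero, bb_succ, Nat.mul_zero, Nat.zero_add]⟩
  | succ n ih =>
    obtain ⟨m, hm⟩ := ih
    refine ⟨m + 2 ^ n * aa q u (l + 1 + n), ?_⟩
    rw [show l + 1 + (n + 1) = (l + 1 + n) + 1 by ring, bb_succ, hm, pow_add, pow_succ]
    ring

/-- columns of level `l` strictly between two columns of a higher level -/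
theorem column {c : ℕ → ℕ → HL} {p o q u : ℕ → Bool} (h : Pack c p o q u) {k i j : ℕ}
    (hj : 0 < j) (hjk : j < 2 ^ k) : padicValNat 2 j < k ∧
    ∃ X, bb p o k + 2 ^ k * i + j = bb p o (padicValNat 2 j) + 2 ^ (padicValNat 2 j) * X ∧
      qk p o (bb p o (padicValNat 2 j)) (padicValNat 2 j) X = true := by
  set l := padicValNat 2 j with hl
  have hdvd : 2 ^ l ∣ j := pow_padicValNat_dvd
  have hlk : l < k := by
    by_contra hcon
    push Not at hcon
    have h1 : 2 ^ k ∣ j := (pow_dvd_pow 2 hcon).trans hdvd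
    exact absurd (Nat.le_of_dvd hj h1) (not_le.2 hjk)
  refine ⟨hlk, ?_⟩
  obtain ⟨m, hm⟩ := hdvd
  have hodd : m % 2 = 1 := by
    by_contra hcon
    have h2 : 2 ∣ m := by omega
    have h3 : 2 ^ (l + 1) ∣ j := by
      rw [hm, pow_succ]; exact mul_dvd_mul_left _ h2
    exact (pow_succ_padicValNat_not_dvd (p := 2) hj.ne') h3
  obtain ⟨n, rfl⟩ : ∃ n, k = l + 1 + n := ⟨k - l - 1, by omega⟩
  obtain ⟨m', hm'⟩ := col p o l n
  obtain ⟨m'', rfl⟩ : ∃ m'', m = 2 * m'' + 1 := ⟨m / 2, by omega⟩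
  refine ⟨2 * (m' + 2 ^ n * i + m'') + (aa p o l + 1), ?_, ?_⟩
  · rw [hm', hm, pow_add, pow_succ]; ring
  · have hk := (key h l).1
    have ha : qk p o (bb p o l) l (aa p o l) = false :=
      aa_false (c := c) (p := p) (o := o) (q := q) (u := u) (fun i => hk.p_succ i)
    rw [hk.p_even, hk.p_succ, ha]; rfl

/-- the row `zz` -/
theorem row {c : ℕ → ℕ → HL} {p o q u : ℕ → Bool} (h : Pack c p o q u) (k : ℕ) :
    ∃ Z, zz q u k = bb q u k + 2 ^ k * Z ∧ qk q u (bb q u k) k Z = true := by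
  unfold zz
  have hk := (key h k).1
  cases h0 : qk q u (bb q u k) k 0
  · refine ⟨1, by simp, ?_⟩
    have := hk.q_succ 0
    rw [Nat.zero_add] at this
    rw [this, h0]; rfl
  · exact ⟨0, by simp, h0⟩

theorem main {c : ℕ → ℕ → HL} {p o q u : ℕ → Bool} (h : Pack c p o q u) :
    (∀ k i j, 0 < j → j < 2 ^ k → (c (bb p o k + 2 ^ k * i + j) (zz q u k)).ty.isH = true) ∧
    (∀ k i, (c (bb p o k + 2 ^ k * i) (zz q u k)).ty.isH = false) ∧
    ∀ k i j, 0 < j → j < 2 ^ k →
      (c (bb p o k + 2 ^ k * i + j) (zz q u (padicValNat 2 j))).ty = .C := by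
  refine ⟨fun k i j hj hjk => ?_, fun k i => ?_, fun k i j hj hjk => ?_⟩
  · obtain ⟨hlk, X, hX, hpX⟩ := column h (i := i) hj hjk
    obtain ⟨Z, hZ, hqZ⟩ := row h k
    set l := padicValNat 2 j with hl
    obtain ⟨n, rfl⟩ : ∃ n, k = l + 1 + n := ⟨k - l - 1, by omega⟩
    obtain ⟨m', hm'⟩ := col q u l n
    obtain ⟨hk, ht⟩ := key h l
    have hb : qk q u (bb q u l) l (aa q u l) = false :=
      aa_false (c := c) (p := p) (o := o) (q := q) (u := u) (fun i => hk.q_succ i)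
    have hb2 : qk q u (bb q u l) l (2 * (m' + 2 ^ n * Z) + aa q u l) = false := by
      have := hk.tr.p_even (aa q u l) (m' + 2 ^ n * Z)
      rw [this]; exact hb
    have h1 := hk.hh (x := X) (z := 2 * (m' + 2 ^ n * Z) + aa q u l) hpX hb2
    rw [ht] at h1
    rw [hX, hZ, hm']
    rw [show bb q u l + 2 ^ l * (2 * m' + aa q u l) + 2 ^ (l + 1 + n) * Z =
      bb q u l + 2 ^ l * (2 * (m' + 2 ^ n * Z) + aa q u l) by rw [pow_add, pow_succ]; ring]
    exact h1
  · obtain ⟨Z, hZ, hqZ⟩ := row h k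
    obtain ⟨hk, ht⟩ := key h k
    rw [hZ, ← ht]
    cases hp : qk p o (bb p o k) k i
    · exact isV_not_isH (hk.vv (x := i) (z := Z) hp hqZ)
    · rw [hk.cc (x := i) (z := Z) hp hqZ]; rfl
  · obtain ⟨hlk, X, hX, hpX⟩ := column h (i := i) hj hjk
    obtain ⟨Z, hZ, hqZ⟩ := row h (padicValNat 2 j)
    obtain ⟨hk, ht⟩ := key h (padicValNat 2 j)
    rw [hX, hZ, ← ht]
    exact hk.cc (x := X) (z := Z) hpX hqZ

theorem done : StmHier := by
  intro c p o q u hc hf
  exact main ⟨hc, fun x z => (hf x z).1, fun x z => (hf x z).2.1, fun x z => (hf x z).2.2.1,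
    fun x z => (hf x z).2.2.2⟩

theorem t (_ : StmClose) : StmHier := done

end Pool.Agent.Y801.BC.Hier
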